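import Pool.Agent.Lib.H95P.P4
import Pool.Agent.Lib.H75C.C7

/-! # H95P/P5: the symmetries of the functional `H75C.LL` -/

namespace Pool.Agent.H95P

open Matrix Pool.Agent.H92U Pool.Agent.H25A

section words

theorem wd_eq {ι : Type*} [Fintype ι] [DecidableEq ι] (L : Fin 4 → Matrix ι ι ℂ)
    (w : List (Fin 4)) : H75C.wd L w = wd L w := by
  induction w with
  | nil => rfl
  | cons a w ih => rw [H75C.wd_cons, wd_cons, ih]

theorem sg_eq (w : List (Fin 4)) : (w.map sA).prod = H75C.sg w := by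
  induction w with
  | nil => rfl
  | cons a w ih =>
    rw [List.map_cons, List.prod_cons, ih, H75C.sg]
    fin_cases a <;> simp [sA]

theorem prod_s1 (w : List (Fin 4)) :
    (w.map s1).prod = (-1) ^ (w.count 1 + w.count 2) := by
  induction w with
  | nil => rfl
  | cons a w ih =>
    rw [List.map_cons, List.prod_cons, ih, List.count_cons, List.count_cons]
    fin_cases a <;> simp [s1, pow_add, pow_succ]

theorem prod_s2 (w : List (Fin 4)) :
    (w.map s2).prod = (-1) ^ (w.count 1 + w.count 3) := by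
  induction w with
  | nil => rfl
  | cons a w ih =>
    rw [List.map_cons, List.prod_cons, ih, List.count_cons, List.count_cons]
    fin_cases a <;> simp [s2, pow_add, pow_succ]

theorem prod_s3 (w : List (Fin 4)) : (w.map s3).prod = (-1) ^ w.count 1 := by
  induction w with
  | nil => rfl
  | cons a w ih =>
    rw [List.map_cons, List.prod_cons, ih, List.count_cons]
    fin_cases a <;> simp [s3, pow_succ]

theorem nPY_eq (w : List (Fin 4)) : nPY w = w.count 1 + w.count 2 := by
  induction w with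
  | nil => rfl
  | cons a w ih =>
    rw [nPY, ih, List.count_cons, List.count_cons]
    fin_cases a <;> simp <;> omega

theorem count_p3 (w : List (Fin 4)) : (w.map p3).count 1 = w.count 3 ∧
    (w.map p3).count 2 = w.count 2 ∧ (w.map p3).count 3 = w.count 1 := by
  induction w with
  | nil => exact ⟨rfl, rfl, rfl⟩
  | cons a w ih =>
    obtain ⟨h1, h2, h3⟩ := ih
    simp only [List.map_cons, List.count_cons, h1, h2, h3]
    fin_cases a <;> simp [p3]

theorem count_p4 (w : List (Fin 4)) : (w.map p4).count 1 = w.count 2 ∧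
    (w.map p4).count 2 = w.count 1 ∧ (w.map p4).count 3 = w.count 3 := by
  induction w with
  | nil => exact ⟨rfl, rfl, rfl⟩
  | cons a w ih =>
    obtain ⟨h1, h2, h3⟩ := ih
    simp only [List.map_cons, List.count_cons, h1, h2, h3]
    fin_cases a <;> simp [p4]

/-- `Y ↔ Z`. -/
def p5 : Fin 4 → Fin 4 := ![0, 1, 3, 2]

/-- A 3-cycle. -/
def p6 : Fin 4 → Fin 4 := ![0, 3, 1, 2]

/-- A 3-cycle. -/
def p7 : Fin 4 → Fin 4 := ![0, 2, 3, 1]

/-- The six permutations of the letters `P, Y, Z`. -/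
def perm6 : Fin 6 → Fin 4 → Fin 4 :=
  ![id, p3, p4, p5, p6, p7]

/-- The exponents of the signs; `p, y, z` are the numbers of `P, Y, Z`. -/
def e6 : Fin 6 → ℕ → ℕ → ℕ → ℕ
  | 0, _, _, _ => 0
  | 1, p, _, _ => p
  | 2, p, y, _ => (p + y) / 2
  | 3, _, y, z => (y + z) / 2
  | 4, p, y, z => p + (z + y) / 2
  | 5, p, y, _ => (p + y) / 2 + y

end words

variable {ι κ : Type*} [Fintype ι] [DecidableEq ι] [Fintype κ] {D : ℕ}

theorem LL_eq (δ : Design 2 D) (X : Matrix ι ι ℂ) (B : Fin 2 → Matrix κ ι ℂ)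
    (u v : List (Fin 4)) : H75C.LL δ B X u v = Lf δ X B u v := by
  unfold H75C.LL Lf
  refine Av_congr δ fun g => ?_
  rw [wd_eq, wd_eq]
  rfl

theorem LL_comm (δ : Design 2 D) (X : Matrix ι ι ℂ) (B : Fin 2 → Matrix κ ι ℂ)
    (u v : List (Fin 4)) : H75C.LL δ B X u v = H75C.LL δ B X v u := by
  rw [LL_eq, LL_eq, Lf_comm]

theorem LL_rev (δ : Design 2 D) {X : Matrix ι ι ℂ} (hX : X.IsHermitian)
    (B : Fin 2 → Matrix κ ι ℂ) (u v : List (Fin 4)) :
    H75C.LL δ B X u v = ((H75C.sg u * H75C.sg v : ℤ) : ℝ) *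
      H75C.LL δ B X u.reverse v.reverse := by
  rw [LL_eq, LL_eq, Lf_rev δ hX, sg_eq, sg_eq]

/-- The functional vanishes if the numbers of `P`, `Y`, `Z` do not have the same parity. -/
theorem LL_zero (δ : Design 2 D) (X : Matrix ι ι ℂ) (B : Fin 2 → Matrix κ ι ℂ)
    (u v : List (Fin 4)) (hD : 2 * (u.length + v.length) ≤ D)
    (h : (u.count 1 + v.count 1) % 2 ≠ (u.count 2 + v.count 2) % 2 ∨
      (u.count 1 + v.count 1) % 2 ≠ (u.count 3 + v.count 3) % 2) :
    H75C.LL δ B X u v = 0 := by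
  rw [LL_eq]
  refine Lf_parity δ X B u v hD ?_
  rw [prod_s1, prod_s1, prod_s2, prod_s2, ← pow_add, ← pow_add]
  rcases h with h | h
  · left
    rw [Odd.neg_one_pow]
    rw [Nat.odd_iff]
    omega
  · right
    rw [Odd.neg_one_pow]
    rw [Nat.odd_iff]
    omega

theorem LL_PZ (δ : Design 2 D) (X : Matrix ι ι ℂ) (B : Fin 2 → Matrix κ ι ℂ)
    (u v : List (Fin 4)) (hD : 2 * (u.length + v.length) ≤ D) :
    H75C.LL δ B X u v = (-1) ^ (u.count 1 + v.count 1) *
      H75C.LL δ B X (u.map p3) (v.map p3) := by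
  rw [LL_eq, LL_eq, Lf_V3 δ X B u v hD, prod_s3, prod_s3, ← pow_add]
  push_cast
  rfl

theorem LL_PY (δ : Design 2 D) (X : Matrix ι ι ℂ) (B : Fin 2 → Matrix κ ι ℂ)
    (u v : List (Fin 4)) (hD : 2 * (u.length + v.length) ≤ D) :
    H75C.LL δ B X u v = (-1) ^ ((u.count 1 + v.count 1 + (u.count 2 + v.count 2)) / 2) *
      H75C.LL δ B X (u.map p4) (v.map p4) := by
  by_cases h : (u.count 1 + v.count 1) % 2 = (u.count 2 + v.count 2) % 2
  · rw [LL_eq, LL_eq]
    refine Lf_V4 δ X B u v hD _ ?_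
    rw [nPY_eq, nPY_eq]
    omega
  · rw [LL_zero δ X B u v hD (Or.inl h), LL_zero δ X B (u.map p4) (v.map p4) (by simpa using hD)
      (Or.inl ?_), mul_zero]
    rw [(count_p4 u).1, (count_p4 v).1, (count_p4 u).2.1, (count_p4 v).2.1]
    exact fun h' => h h'.symm

private theorem sgn_congr {a b : ℕ} (x : ℝ) (h : a % 2 = b % 2) :
    (-1 : ℝ) ^ a * x = (-1) ^ b * x := by
  rw [neg_one_pow_eq_pow_mod_two (R := ℝ) a, neg_one_pow_eq_pow_mod_two (R := ℝ) b, h]

/-- The six permutations of the letters. -/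
theorem LL_perm (δ : Design 2 D) (X : Matrix ι ι ℂ) (B : Fin 2 → Matrix κ ι ℂ)
    (u v : List (Fin 4)) (hD : 2 * (u.length + v.length) ≤ D) (j : Fin 6) :
    H75C.LL δ B X u v =
      (-1) ^ (e6 j (u.count 1 + v.count 1) (u.count 2 + v.count 2) (u.count 3 + v.count 3)) *
        H75C.LL δ B X (u.map (perm6 j)) (v.map (perm6 j)) := by
  have hmm : ∀ (f g : Fin 4 → Fin 4) (w : List (Fin 4)), (w.map f).map g = w.map (g ∘ f) :=
    fun f g w => List.map_map
  have h4 : ∀ u v : List (Fin 4), 2 * (u.length + v.length) ≤ D →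
      H75C.LL δ B X u v =
      (-1) ^ (u.count 1 + v.count 1 + (u.count 3 + v.count 3 + (u.count 2 + v.count 2)) / 2) *
        H75C.LL δ B X (u.map p6) (v.map p6) := by
    intro u v hD
    have h1 := LL_PZ δ X B u v hD
    have h2 := LL_PY δ X B (u.map p3) (v.map p3) (by simpa using hD)
    have h5 : p4 ∘ p3 = p6 := by
      funext a
      fin_cases a <;> rfl
    rw [hmm, hmm, h5, (count_p3 u).1, (count_p3 v).1, (count_p3 u).2.1, (count_p3 v).2.1] at h2
    rw [h1, h2, ← mul_assoc, ← pow_add]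
  have h5 : ∀ u v : List (Fin 4), 2 * (u.length + v.length) ≤ D →
      H75C.LL δ B X u v =
      (-1) ^ ((u.count 1 + v.count 1 + (u.count 2 + v.count 2)) / 2 + (u.count 2 + v.count 2)) *
        H75C.LL δ B X (u.map p7) (v.map p7) := by
    intro u v hD
    have h1 := LL_PY δ X B u v hD
    have h2 := LL_PZ δ X B (u.map p4) (v.map p4) (by simpa using hD)
    have h5 : p3 ∘ p4 = p7 := by
      funext a
      fin_cases a <;> rfl
    rw [hmm, hmm, h5, (count_p4 u).1, (count_p4 v).1] at h2
    rw [h1, h2, ← mul_assoc, ← pow_add]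
  have h3 : ∀ u v : List (Fin 4), 2 * (u.length + v.length) ≤ D →
      H75C.LL δ B X u v =
      (-1) ^ ((u.count 2 + v.count 2 + (u.count 3 + v.count 3)) / 2) *
        H75C.LL δ B X (u.map p5) (v.map p5) := by
    intro u v hD
    by_cases hp : (u.count 1 + v.count 1) % 2 ≠ (u.count 2 + v.count 2) % 2 ∨
      (u.count 1 + v.count 1) % 2 ≠ (u.count 3 + v.count 3) % 2
    · have hc : ∀ w : List (Fin 4), (w.map p5).count 1 = w.count 1 ∧
          (w.map p5).count 2 = w.count 3 ∧ (w.map p5).count 3 = w.count 2 := by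
        intro w
        induction w with
        | nil => exact ⟨rfl, rfl, rfl⟩
        | cons a w ih =>
          obtain ⟨h1, h2, h3⟩ := ih
          simp only [List.map_cons, List.count_cons, h1, h2, h3]
          fin_cases a <;> simp [p5]
      rw [LL_zero δ X B u v hD hp, LL_zero δ X B (u.map p5) (v.map p5) (by simpa using hD) ?_,
        mul_zero]
      rw [(hc u).1, (hc v).1, (hc u).2.1, (hc v).2.1, (hc u).2.2, (hc v).2.2]
      exact hp.symm
    · push Not at hp
      have h1 := h4 u v hD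
      have h2 := LL_PZ δ X B (u.map p6) (v.map p6) (by simpa using hD)
      have h6 : p3 ∘ p6 = p5 := by
        funext a
        fin_cases a <;> rfl
      have hc : ∀ w : List (Fin 4), (w.map p6).count 1 = w.count 2 := by
        intro w
        induction w with
        | nil => rfl
        | cons a w ih =>
          simp only [List.map_cons, List.count_cons, ih]
          fin_cases a <;> simp [p6]
      rw [hmm, hmm, h6, hc, hc] at h2
      rw [h1, h2, ← mul_assoc, ← pow_add]
      refine sgn_congr _ ?_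
      omega
  fin_cases j
  · change _ = (-1) ^ 0 * H75C.LL δ B X (u.map id) (v.map id)
    rw [List.map_id, List.map_id, pow_zero, one_mul]
  · exact LL_PZ δ X B u v hD
  · exact LL_PY δ X B u v hD
  · exact h3 u v hD
  · exact h4 u v hD
  · exact h5 u v hD

end Pool.Agent.H95P
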