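import Pool.Agent.Lib.H16T.FA3

/-! # H95P/P1: from the frame average to the plane average

Unitary groups of smaller size acting on some of the coordinates, invariance of the frame
averages, real polynomial functions on the unitary group. -/

namespace Pool.Agent.H95P

open Matrix Pool.Agent.H92U

variable {m n D : ℕ}

/-! ### the embedding -/

/-- The inclusion of the coordinates `c`. -/
def inc (c : Fin m → Fin n) : Matrix (Fin n) (Fin m) ℂ := fun x i => if x = c i then 1 else 0

theorem inc_orth {c : Fin m → Fin n} (hc : Function.Injective c) : (inc c)ᴴ * inc c = 1 := by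
  ext i j
  rw [Matrix.mul_apply, Matrix.one_apply]
  simp only [inc, Matrix.conjTranspose_apply]
  rw [Finset.sum_eq_single (c j)]
  · by_cases h : i = j
    · subst h
      simp
    · have h' : c j ≠ c i := fun h2 => h (hc h2).symm
      simp [h, h']
  · intro x _ hx
    simp [hx]
  · intro h
    exact absurd (Finset.mem_univ _) h

/-- The embedded matrix. -/
noncomputable def embM (c : Fin m → Fin n) (g : Matrix (Fin m) (Fin m) ℂ) :
    Matrix (Fin n) (Fin n) ℂ := 1 + inc c * (g - 1) * (inc c)ᴴ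

theorem embM_mem {c : Fin m → Fin n} (hc : Function.Injective c) (g : UG m) :
    embM c (g : Matrix (Fin m) (Fin m) ℂ) ∈ Matrix.unitaryGroup (Fin n) ℂ := by
  rw [Matrix.mem_unitaryGroup_iff', Matrix.star_eq_conjTranspose]
  have hg : (g : Matrix (Fin m) (Fin m) ℂ)ᴴ * (g : Matrix (Fin m) (Fin m) ℂ) = 1 := by
    have h := Matrix.mem_unitaryGroup_iff'.1 g.2
    rwa [Matrix.star_eq_conjTranspose] at h
  unfold embM
  rw [Matrix.conjTranspose_add, Matrix.conjTranspose_one, Matrix.conjTranspose_mul,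
    Matrix.conjTranspose_mul, Matrix.conjTranspose_conjTranspose, Matrix.conjTranspose_sub,
    Matrix.conjTranspose_one]
  set J := inc c
  set G := (g : Matrix (Fin m) (Fin m) ℂ)
  have hJ : Jᴴ * J = 1 := inc_orth hc
  calc (1 + J * ((Gᴴ - 1) * Jᴴ)) * (1 + J * (G - 1) * Jᴴ)
      = 1 + (J * (G - 1) * Jᴴ + J * (Gᴴ - 1) * Jᴴ +
          J * (Gᴴ - 1) * (Jᴴ * J) * (G - 1) * Jᴴ) := by
        simp only [Matrix.mul_add, Matrix.add_mul, Matrix.mul_one, Matrix.one_mul,
          Matrix.mul_assoc]
        abel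
    _ = 1 + J * (Gᴴ * G - 1) * Jᴴ := by
        rw [hJ, Matrix.mul_one]
        simp only [Matrix.mul_sub, Matrix.sub_mul, Matrix.mul_one, Matrix.mul_assoc]
        abel
    _ = 1 := by
        rw [hg, sub_self, Matrix.mul_zero, Matrix.zero_mul, add_zero]

/-- The embedding of `U(m)` in `U(n)` acting on the coordinates `c`. -/
noncomputable def emb (c : Fin m → Fin n) (hc : Function.Injective c) (g : UG m) : UG n :=
  ⟨embM c (g : Matrix (Fin m) (Fin m) ℂ), embM_mem hc g⟩

theorem rot_emb {M : Type*} [AddCommGroup M] [Module ℂ M] {c : Fin m → Fin n}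
    (hc : Function.Injective c) (g : UG m) (B : Fin n → M) (i : Fin m) :
    rot (emb c hc g) B (c i) = rot g (fun k => B (c k)) i := by
  have h1 : ∀ x, ((emb c hc g : UG n) : Matrix (Fin n) (Fin n) ℂ) x (c i) =
      (if x = c i then 1 else 0) +
        ∑ k, (if x = c k then 1 else 0) * ((g : Matrix (Fin m) (Fin m) ℂ) k i -
          if k = i then 1 else 0) := by
    intro x
    change embM c (g : Matrix (Fin m) (Fin m) ℂ) x (c i) = _
    unfold embM
    rw [Matrix.add_apply, Matrix.one_apply, Matrix.mul_apply]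
    congr 1
    rw [Finset.sum_eq_single i]
    · rw [Matrix.mul_apply]
      simp only [inc, Matrix.conjTranspose_apply, Matrix.sub_apply, Matrix.one_apply, if_true,
        star_one, mul_one]
    · intro k _ hk
      have h' : c i ≠ c k := fun h2 => hk (hc h2).symm
      simp [inc, h']
    · intro h
      exact absurd (Finset.mem_univ _) h
  unfold rot
  simp only [h1, add_smul, Finset.sum_add_distrib, Finset.sum_smul]
  rw [Finset.sum_comm]
  have h2 : ∀ k : Fin m, ∑ x, ((if x = c k then (1 : ℂ) else 0) *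
      ((g : Matrix (Fin m) (Fin m) ℂ) k i - if k = i then 1 else 0)) • B x =
      ((g : Matrix (Fin m) (Fin m) ℂ) k i - if k = i then 1 else 0) • B (c k) := by
    intro k
    rw [Finset.sum_eq_single (c k)]
    · simp
    · intro x _ hx
      simp [hx]
    · intro h
      exact absurd (Finset.mem_univ _) h
  have h3 : ∑ x, (if x = c i then (1 : ℂ) else 0) • B x = B (c i) := by
    simp [ite_smul]
  rw [h3]
  simp only [h2, sub_smul, Finset.sum_sub_distrib]
  have h4 : ∑ k, (if k = i then (1 : ℂ) else 0) • B (c k) = B (c i) := by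
    simp [ite_smul]
  rw [h4]
  abel

theorem rot_mul_emb {M : Type*} [AddCommGroup M] [Module ℂ M] {c : Fin m → Fin n}
    (hc : Function.Injective c) (g : UG m) (U : UG n) (A : Fin n → M) (i : Fin m) :
    rot (U * emb c hc g) A (c i) = rot g (fun k => rot U A (c k)) i := by
  rw [rot_mul, rot_emb]

/-! ### real polynomial functions -/

/-- Real parts of polynomials of degree at most `D`. -/
def PolR (D : ℕ) (f : UG n → ℝ) : Prop := ∃ g : UG n → ℂ, PolLe D g ∧ ∀ U, f U = (g U).re

namespace PolR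

variable {D' : ℕ} {f f' : UG n → ℝ}

theorem congr (hf : PolR D f) (h : ∀ U, f' U = f U) : PolR D f' := by
  obtain ⟨g, hg, h1⟩ := hf
  exact ⟨g, hg, fun U => by rw [h, h1]⟩

theorem mono (h : D ≤ D') (hf : PolR D f) : PolR D' f := by
  obtain ⟨g, hg, h1⟩ := hf
  exact ⟨g, hg.mono h, h1⟩

theorem const (c : ℝ) : PolR (n := n) D (fun _ => c) :=
  ⟨fun _ => (c : ℂ), PolLe.const _, fun _ => (Complex.ofReal_re c).symm⟩

theorem add (hf : PolR D f) (hf' : PolR D f') : PolR D (fun U => f U + f' U) := by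
  obtain ⟨g, hg, h1⟩ := hf
  obtain ⟨g', hg', h1'⟩ := hf'
  exact ⟨fun U => g U + g' U, hg.add hg', fun U => by simp only [Complex.add_re, h1, h1']⟩

theorem sub (hf : PolR D f) (hf' : PolR D f') : PolR D (fun U => f U - f' U) := by
  obtain ⟨g, hg, h1⟩ := hf
  obtain ⟨g', hg', h1'⟩ := hf'
  exact ⟨fun U => g U - g' U, hg.sub hg', fun U => by simp only [Complex.sub_re, h1, h1']⟩

theorem smul (c : ℝ) (hf : PolR D f) : PolR D (fun U => c * f U) := by
  obtain ⟨g, hg, h1⟩ := hf
  exact ⟨fun U => (c : ℂ) * g U, hg.smul _, fun U => by simp only [Complex.re_ofReal_mul, h1]⟩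

theorem sum {ι : Type*} (s : Finset ι) (F : ι → UG n → ℝ) (h : ∀ i ∈ s, PolR D (F i)) :
    PolR D (fun U => ∑ i ∈ s, F i U) := by
  classical
  induction s using Finset.induction_on with
  | empty => exact (const 0).congr fun U => by simp
  | insert a s ha ih =>
    have h1 := (h a (Finset.mem_insert_self a s)).add
      (ih fun i hi => h i (Finset.mem_insert_of_mem hi))
    exact h1.congr fun U => by rw [Finset.sum_insert ha]

theorem rtr {ι : Type*} [Fintype ι] {F : UG n → Matrix ι ι ℂ} (hF : PolM D F) :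
    PolR D (fun U => Pool.Agent.H25A.rtr (F U)) :=
  ⟨fun U => (F U).trace, hF.trace, fun _ => rfl⟩

theorem mul_right (V : UG n) (hf : PolR D f) : PolR D (fun U => f (U * V)) := by
  obtain ⟨g, hg, h1⟩ := hf
  exact ⟨fun U => g (U * V), PolLe.mul_right V hg, fun U => h1 _⟩

theorem Av_right (δ : Design n D) (hf : PolR D f) (V : UG n) :
    Av δ (fun U => f (U * V)) = Av δ f := by
  obtain ⟨g, hg, h1⟩ := hf
  have h2 : Av δ f = Av δ (fun U => (g U).re) := Av_congr δ h1
  have h3 : Av δ (fun U => f (U * V)) = Av δ (fun U => (g (U * V)).re) :=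
    Av_congr δ fun U => h1 _
  rw [h2, h3, Av_re, Av_re, H92U.Av_right δ hg V]

end PolR

/-! ### the plane average -/

section plane

variable {p q : Type*} {A : Fin n → Matrix p q ℂ} {c : Fin m → Fin n}

/-- The frame average is invariant under rotations inside the coordinates `c`. -/
theorem Av_emb (δ : Design n D) (hc : Function.Injective c)
    (Ψ : (Fin m → Matrix p q ℂ) → ℝ) (hΨ : PolR D (fun U => Ψ (fun k => rot U A (c k))))
    (g : UG m) : Av δ (fun U => Ψ (rot g (fun k => rot U A (c k)))) =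
      Av δ (fun U => Ψ (fun k => rot U A (c k))) := by
  rw [← hΨ.Av_right δ (emb c hc g)]
  refine Av_congr δ fun U => ?_
  have h : (fun k => rot (U * emb c hc g) A (c k)) = rot g (fun k => rot U A (c k)) := by
    funext i
    exact rot_mul_emb hc g U A i
  rw [h]

/-- A plane inequality, averaged over finitely many rotations of the plane, gives the inequality
for the frame average. -/
theorem Av_nonneg_of_plane (δ : Design n D) (hc : Function.Injective c)
    (Ψ : (Fin m → Matrix p q ℂ) → ℝ) (hΨ : PolR D (fun U => Ψ (fun k => rot U A (c k))))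
    {s : Type*} [Fintype s] (w : s → ℝ) (hw : 0 < ∑ j, w j) (g : s → UG m)
    (hp : ∀ U : UG n, 0 ≤ ∑ j, w j * Ψ (rot (g j) (fun k => rot U A (c k)))) :
    0 ≤ Av δ (fun U => Ψ (fun k => rot U A (c k))) := by
  have h1 : 0 ≤ Av δ (fun U => ∑ j, w j * Ψ (rot (g j) (fun k => rot U A (c k)))) :=
    Av_nonneg δ hp
  rw [Av_sum] at h1
  have h2 : ∀ j, Av δ (fun U => w j * Ψ (rot (g j) (fun k => rot U A (c k)))) =
      w j * Av δ (fun U => Ψ (fun k => rot U A (c k))) := by
    intro j
    rw [Av_mul_left_real, Av_emb δ hc Ψ hΨ (g j)]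
  simp only [h2, ← Finset.sum_mul] at h1
  exact nonneg_of_mul_nonneg_right h1 hw

end plane

/-! ### pairs of vectors of a frame -/

/-- The pair of coordinates `l, i`. -/
theorem pair_inj {l i : Fin n} (h : l ≠ i) : Function.Injective ![l, i] := by
  intro x y hxy
  fin_cases x <;> fin_cases y
  · rfl
  · exact absurd hxy h
  · exact absurd hxy.symm h
  · rfl

theorem pair_rot {M : Type*} [AddCommGroup M] [Module ℂ M] (U : UG n) (A : Fin n → M)
    (l i : Fin n) : (fun k => rot U A (![l, i] k)) = ![rot U A l, rot U A i] := by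
  funext k
  fin_cases k <;> rfl

/-- The plane inequality for all pairs gives the sum over the pairs of the frame average. -/
theorem Av_pairs_nonneg {p q : Type*} {A : Fin n → Matrix p q ℂ} (δ : Design n D)
    (Ψ : (Fin 2 → Matrix p q ℂ) → ℝ)
    (hΨ : ∀ l i : Fin n, PolR D (fun U => Ψ ![rot U A l, rot U A i]))
    {s : Type*} [Fintype s] (w : s → ℝ) (hw : 0 < ∑ j, w j) (g : s → UG 2)
    (hp : ∀ (U : UG n) (l i : Fin n), l ≠ i →
      0 ≤ ∑ j, w j * Ψ (rot (g j) ![rot U A l, rot U A i])) :
    0 ≤ Av δ (fun U => ∑ l, ∑ i ∈ Finset.univ.erase l, Ψ ![rot U A l, rot U A i]) := by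
  rw [Av_sum]
  refine Finset.sum_nonneg fun l _ => ?_
  rw [Av_sum]
  refine Finset.sum_nonneg fun i hi => ?_
  have hli : l ≠ i := (Finset.ne_of_mem_erase hi).symm
  have h := Av_nonneg_of_plane (A := A) δ (pair_inj hli) Ψ
    ((hΨ l i).congr fun U => by rw [pair_rot]) w hw g (fun U => by
      rw [pair_rot]
      exact hp U l i hli)
  simpa only [pair_rot] using h

open scoped ComplexOrder in
/-- Pairs of vectors of a frame of a contraction are contractions. -/
theorem conR_rot {ι κ : Type*} [Fintype ι] [DecidableEq ι] [Fintype κ]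
    {A : Fin n → Matrix κ ι ℂ} (hA : H16T.ConR A) (U : UG n) : H16T.ConR (rot U A) := by
  intro x
  have h := hA (fun k => ∑ i, (U : Matrix (Fin n) (Fin n) ℂ) k i * x i)
  have h1 : ∑ k, x k • rot U A k =
      ∑ k, (∑ i, (U : Matrix (Fin n) (Fin n) ℂ) k i * x i) • A k := by
    unfold rot
    simp only [Finset.smul_sum, Finset.sum_smul, smul_smul]
    rw [Finset.sum_comm]
    exact Finset.sum_congr rfl fun k _ => Finset.sum_congr rfl fun j _ => by rw [mul_comm]
  have h2 : (((∑ k, ‖∑ i, (U : Matrix (Fin n) (Fin n) ℂ) k i * x i‖ ^ 2 : ℝ)) : ℂ) =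
      ((∑ k, ‖x k‖ ^ 2 : ℝ) : ℂ) := by
    have h3 : ∀ z : ℂ, ((‖z‖ ^ 2 : ℝ) : ℂ) = z * star z := by
      intro z
      rw [Complex.star_def, Complex.mul_conj, Complex.normSq_eq_norm_sq]
    have h4 : ∀ k, ((‖∑ i, (U : Matrix (Fin n) (Fin n) ℂ) k i * x i‖ ^ 2 : ℝ) : ℂ) =
        ∑ i, ∑ j, (x i * star (x j)) * ((U : Matrix (Fin n) (Fin n) ℂ) k i *
          star ((U : Matrix (Fin n) (Fin n) ℂ) k j)) := by
      intro k
      rw [h3, star_sum, Finset.sum_mul_sum]
      refine Finset.sum_congr rfl fun i _ => Finset.sum_congr rfl fun j _ => ?_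
      rw [star_mul']
      ring
    have h5 : ∀ i : Fin n, ∑ k, ∑ j, (x i * star (x j)) *
        ((U : Matrix (Fin n) (Fin n) ℂ) k i * star ((U : Matrix (Fin n) (Fin n) ℂ) k j)) =
        x i * star (x i) := by
      intro i
      rw [Finset.sum_comm]
      simp only [← Finset.mul_sum, col_orth, mul_ite, mul_one, mul_zero]
      simp
    rw [Complex.ofReal_sum, Complex.ofReal_sum]
    simp only [h4, h3]
    rw [Finset.sum_comm]
    simp only [h5]
  rw [h2] at h
  rw [h1]
  exact h

end Pool.Agent.H95P
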