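import Pool.Agent.Lib.H95P.P1

/-! # H95P/P2: the octahedral group in `U(2)` and its action on the letters of a plane -/

namespace Pool.Agent.H95P

open Matrix Pool.Agent.H92U

/-! ### two generators -/

/-- `diag(1, i)`. -/
def gSm : Matrix (Fin 2) (Fin 2) ℂ := !![1, 0; 0, Complex.I]

/-- `1/√2`. -/
noncomputable def rs : ℂ := (((Real.sqrt 2)⁻¹ : ℝ) : ℂ)

theorem rs_star : star rs = rs := by
  unfold rs
  rw [Complex.star_def, Complex.conj_ofReal]

theorem rs_sq : rs * rs = 1 / 2 := by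
  unfold rs
  rw [← Complex.ofReal_mul, ← mul_inv, Real.mul_self_sqrt (by norm_num)]
  push_cast
  norm_num

/-- The Hadamard matrix. -/
noncomputable def gHm : Matrix (Fin 2) (Fin 2) ℂ := !![rs, rs; rs, -rs]

theorem gSm_mem : gSm ∈ Matrix.unitaryGroup (Fin 2) ℂ := by
  rw [Matrix.mem_unitaryGroup_iff']
  ext i j
  fin_cases i <;> fin_cases j <;>
    simp [gSm, Matrix.mul_apply, Fin.sum_univ_two, Matrix.star_apply]

theorem gHm_mem : gHm ∈ Matrix.unitaryGroup (Fin 2) ℂ := by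
  have h := rs_sq
  have h2 : rs * rs + rs * rs = 1 := by rw [h]; norm_num
  have h3 := rs_star
  rw [Complex.star_def] at h3
  rw [Matrix.mem_unitaryGroup_iff']
  ext i j
  fin_cases i <;> fin_cases j <;>
    simp [gHm, Matrix.mul_apply, Fin.sum_univ_two, Matrix.star_apply, h3, h2]

/-- The generators. -/
def gS : UG 2 := ⟨gSm, gSm_mem⟩

/-- The generators. -/
noncomputable def gH : UG 2 := ⟨gHm, gHm_mem⟩

/-! ### the letters of a plane -/

section letters

variable {p q : Type*} [Fintype p]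

/-- `T_ij = B_i^* B_j`. -/
def tt (B : Fin 2 → Matrix p q ℂ) (i j : Fin 2) : Matrix q q ℂ := (B i)ᴴ * B j

/-- `K = E_0 + E_1 - 1`. -/
def kk [DecidableEq q] (B : Fin 2 → Matrix p q ℂ) : Matrix q q ℂ := tt B 0 0 + tt B 1 1 - 1

/-- `S_1, S_2, S_3`. -/
noncomputable def sg (B : Fin 2 → Matrix p q ℂ) : Fin 3 → Matrix q q ℂ :=
  ![tt B 0 1 + tt B 1 0, (-Complex.I) • tt B 0 1 + Complex.I • tt B 1 0, tt B 0 0 - tt B 1 1]

theorem kk_rot [DecidableEq q] (g : UG 2) (B : Fin 2 → Matrix p q ℂ) :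
    kk (rot g B) = kk B := by
  have h := H92U.sum_rot_sesq g B B (fun x y : Matrix p q ℂ => yᴴ * x)
    (fun x y z => Matrix.mul_add _ _ _)
    (fun x y z => by rw [Matrix.conjTranspose_add, Matrix.add_mul])
    (fun c x y => by rw [Matrix.mul_smul])
    (fun c x y => by rw [Matrix.conjTranspose_smul, Matrix.smul_mul])
  simp only [Fin.sum_univ_two] at h
  unfold kk tt
  rw [h]

omit [Fintype p] in
theorem rot_gS (B : Fin 2 → Matrix p q ℂ) : rot gS B = ![B 0, Complex.I • B 1] := by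
  funext i
  unfold rot
  rw [Fin.sum_univ_two]
  fin_cases i <;> simp [gS, gSm]

omit [Fintype p] in
theorem rot_gH (B : Fin 2 → Matrix p q ℂ) : rot gH B = ![rs • (B 0 + B 1), rs • (B 0 - B 1)] := by
  funext i
  unfold rot
  rw [Fin.sum_univ_two]
  fin_cases i
  · simp [gH, gHm]
  · simp [gH, gHm, sub_eq_add_neg]

omit [Fintype p] in
theorem rot_one' (B : Fin 2 → Matrix p q ℂ) : rot (1 : UG 2) B = B := by
  funext i
  unfold rot
  rw [Fin.sum_univ_two]
  fin_cases i <;> simp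

/-- The table of the first generator. -/
def tS : Fin 3 → Fin 3 × ℤ := ![(1, -1), (0, 1), (2, 1)]

/-- The table of the second generator. -/
def tH : Fin 3 → Fin 3 × ℤ := ![(2, 1), (1, -1), (0, 1)]

theorem sg_gS (B : Fin 2 → Matrix p q ℂ) (a : Fin 3) :
    sg (rot gS B) a = ((tS a).2 : ℂ) • sg B (tS a).1 := by
  rw [rot_gS]
  have h00 : tt ![B 0, Complex.I • B 1] 0 0 = tt B 0 0 := rfl
  have h01 : tt ![B 0, Complex.I • B 1] 0 1 = Complex.I • tt B 0 1 := by
    unfold tt
    exact Matrix.mul_smul _ _ _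
  have h10 : tt ![B 0, Complex.I • B 1] 1 0 = (-Complex.I) • tt B 1 0 := by
    unfold tt
    change (Complex.I • B 1)ᴴ * B 0 = _
    rw [Matrix.conjTranspose_smul, Matrix.smul_mul, Complex.star_def, Complex.conj_I]
  have h11 : tt ![B 0, Complex.I • B 1] 1 1 = tt B 1 1 := by
    unfold tt
    change (Complex.I • B 1)ᴴ * (Complex.I • B 1) = _
    rw [Matrix.conjTranspose_smul, Matrix.smul_mul, Matrix.mul_smul, smul_smul, Complex.star_def,
      Complex.conj_I]
    simp
  fin_cases a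
  · change tt ![B 0, Complex.I • B 1] 0 1 + tt ![B 0, Complex.I • B 1] 1 0 =
      ((-1 : ℤ) : ℂ) • ((-Complex.I) • tt B 0 1 + Complex.I • tt B 1 0)
    rw [h01, h10]
    push_cast
    module
  · change (-Complex.I) • tt ![B 0, Complex.I • B 1] 0 1 +
      Complex.I • tt ![B 0, Complex.I • B 1] 1 0 = ((1 : ℤ) : ℂ) • (tt B 0 1 + tt B 1 0)
    rw [h01, h10, smul_smul, smul_smul, neg_mul, mul_neg, Complex.I_mul_I]
    push_cast
    module
  · change tt ![B 0, Complex.I • B 1] 0 0 - tt ![B 0, Complex.I • B 1] 1 1 =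
      ((1 : ℤ) : ℂ) • (tt B 0 0 - tt B 1 1)
    rw [h00, h11]
    push_cast
    module

theorem sg_gH (B : Fin 2 → Matrix p q ℂ) (a : Fin 3) :
    sg (rot gH B) a = ((tH a).2 : ℂ) • sg B (tH a).1 := by
  rw [rot_gH]
  set B' : Fin 2 → Matrix p q ℂ := ![rs • (B 0 + B 1), rs • (B 0 - B 1)] with hB'
  have h00 : tt B' 0 0 = (1 / 2 : ℂ) • (tt B 0 0 + tt B 0 1 + tt B 1 0 + tt B 1 1) := by
    unfold tt
    change (rs • (B 0 + B 1))ᴴ * (rs • (B 0 + B 1)) = _
    rw [Matrix.conjTranspose_smul, Matrix.smul_mul, Matrix.mul_smul, smul_smul, rs_star, rs_sq,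
      Matrix.conjTranspose_add, Matrix.add_mul, Matrix.mul_add, Matrix.mul_add]
    module
  have h01 : tt B' 0 1 = (1 / 2 : ℂ) • (tt B 0 0 - tt B 0 1 + tt B 1 0 - tt B 1 1) := by
    unfold tt
    change (rs • (B 0 + B 1))ᴴ * (rs • (B 0 - B 1)) = _
    rw [Matrix.conjTranspose_smul, Matrix.smul_mul, Matrix.mul_smul, smul_smul, rs_star, rs_sq,
      Matrix.conjTranspose_add, Matrix.add_mul, Matrix.mul_sub, Matrix.mul_sub]
    module
  have h10 : tt B' 1 0 = (1 / 2 : ℂ) • (tt B 0 0 + tt B 0 1 - tt B 1 0 - tt B 1 1) := by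
    unfold tt
    change (rs • (B 0 - B 1))ᴴ * (rs • (B 0 + B 1)) = _
    rw [Matrix.conjTranspose_smul, Matrix.smul_mul, Matrix.mul_smul, smul_smul, rs_star, rs_sq,
      Matrix.conjTranspose_sub, Matrix.sub_mul, Matrix.mul_add, Matrix.mul_add]
    module
  have h11 : tt B' 1 1 = (1 / 2 : ℂ) • (tt B 0 0 - tt B 0 1 - tt B 1 0 + tt B 1 1) := by
    unfold tt
    change (rs • (B 0 - B 1))ᴴ * (rs • (B 0 - B 1)) = _
    rw [Matrix.conjTranspose_smul, Matrix.smul_mul, Matrix.mul_smul, smul_smul, rs_star, rs_sq,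
      Matrix.conjTranspose_sub, Matrix.sub_mul, Matrix.mul_sub, Matrix.mul_sub]
    module
  fin_cases a
  · change tt B' 0 1 + tt B' 1 0 = ((1 : ℤ) : ℂ) • (tt B 0 0 - tt B 1 1)
    rw [h01, h10]
    push_cast
    module
  · change (-Complex.I) • tt B' 0 1 + Complex.I • tt B' 1 0 =
      ((-1 : ℤ) : ℂ) • ((-Complex.I) • tt B 0 1 + Complex.I • tt B 1 0)
    rw [h01, h10]
    push_cast
    module
  · change tt B' 0 0 - tt B' 1 1 = ((1 : ℤ) : ℂ) • (tt B 0 1 + tt B 1 0)
    rw [h00, h11]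
    push_cast
    module

/-! ### words in the generators -/

/-- The product of a word; `false` is `gS`, `true` is `gH`. -/
noncomputable def gw : List Bool → UG 2
  | [] => 1
  | x :: w => (if x then gH else gS) * gw w

/-- The table of a word. -/
def tw : List Bool → Fin 3 → Fin 3 × ℤ
  | [], a => (a, 1)
  | x :: w, a => ((if x then tH (tw w a).1 else tS (tw w a).1).1,
      (tw w a).2 * (if x then tH (tw w a).1 else tS (tw w a).1).2)

theorem sg_word (w : List Bool) : ∀ (B : Fin 2 → Matrix p q ℂ) (a : Fin 3),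
    sg (rot (gw w) B) a = ((tw w a).2 : ℂ) • sg B (tw w a).1 := by
  induction w with
  | nil =>
    intro B a
    change sg (rot (1 : UG 2) B) a = ((1 : ℤ) : ℂ) • sg B a
    rw [rot_one', Int.cast_one, one_smul]
  | cons x w ih =>
    intro B a
    change sg (rot ((if x then gH else gS) * gw w) B) a = _
    have h1 : rot ((if x then gH else gS) * gw w) B = rot (gw w) (rot (if x then gH else gS) B) :=
      funext fun i => rot_mul _ _ B i
    rw [h1, ih]
    cases x
    · change ((tw w a).2 : ℂ) • sg (rot gS B) (tw w a).1 =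
        (((tw w a).2 * (tS (tw w a).1).2 : ℤ) : ℂ) • sg B (tS (tw w a).1).1
      rw [sg_gS, smul_smul, Int.cast_mul]
    · change ((tw w a).2 : ℂ) • sg (rot gH B) (tw w a).1 =
        (((tw w a).2 * (tH (tw w a).1).2 : ℤ) : ℂ) • sg B (tH (tw w a).1).1
      rw [sg_gH, smul_smul, Int.cast_mul]

/-- The words of the 24 rotations. -/
def wO : Fin 24 → List Bool :=
  ![[],
    [false],
    [true],
    [false, false],
    [false, true],
    [true, false],
    [false, false, false],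
    [false, false, true],
    [false, true, false],
    [true, false, false],
    [true, false, true],
    [false, false, false, true],
    [false, false, true, false],
    [false, true, false, false],
    [false, true, false, true],
    [true, false, false, true],
    [false, false, false, true, false],
    [false, false, true, false, false],
    [false, false, true, false, true],
    [false, true, false, false, true],
    [true, false, false, true, false],
    [false, false, false, true, false, false],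
    [false, false, false, true, false, true],
    [false, false, true, false, false, true]]

/-- The 24 rotations. -/
noncomputable def gO (j : Fin 24) : UG 2 := gw (wO j)

/-- The permutations. -/
def pO : Fin 24 → Fin 3 → Fin 3 :=
  ![![0, 1, 2], ![1, 0, 2], ![2, 1, 0], ![0, 1, 2],
    ![2, 0, 1], ![1, 2, 0], ![1, 0, 2], ![2, 1, 0],
    ![0, 2, 1], ![2, 1, 0], ![0, 2, 1], ![2, 0, 1],
    ![1, 2, 0], ![2, 0, 1], ![1, 2, 0], ![0, 1, 2],
    ![0, 2, 1], ![2, 1, 0], ![0, 2, 1], ![1, 0, 2],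
    ![1, 0, 2], ![2, 0, 1], ![1, 2, 0], ![0, 1, 2]]

/-- The signs. -/
def eO : Fin 24 → Fin 3 → ℤ :=
  ![![1, 1, 1], ![-1, 1, 1], ![1, -1, 1], ![-1, -1, 1],
    ![1, -1, -1], ![1, 1, 1], ![1, -1, 1], ![1, 1, -1],
    ![1, 1, -1], ![-1, 1, 1], ![1, -1, 1], ![1, 1, 1],
    ![-1, 1, -1], ![-1, 1, -1], ![-1, -1, 1], ![1, -1, -1],
    ![-1, 1, 1], ![-1, -1, -1], ![-1, -1, -1], ![-1, -1, -1],
    ![1, 1, -1], ![-1, -1, 1], ![1, -1, -1], ![-1, 1, -1]]

theorem tw_wO : ∀ (j : Fin 24) (a : Fin 3), tw (wO j) a = (pO j a, eO j a) := by decide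

theorem sg_rot (B : Fin 2 → Matrix p q ℂ) (j : Fin 24) (a : Fin 3) :
    sg (rot (gO j) B) a = (eO j a : ℂ) • sg B (pO j a) := by
  unfold gO
  rw [sg_word, tw_wO]

theorem kk_gO [DecidableEq q] (B : Fin 2 → Matrix p q ℂ) (j : Fin 24) :
    kk (rot (gO j) B) = kk B := kk_rot _ _

/-! ### the products in terms of the letters -/

theorem tt_00 [DecidableEq q] (B : Fin 2 → Matrix p q ℂ) :
    tt B 0 0 = (1 / 2 : ℂ) • (1 + kk B + sg B 2) := by
  change _ = (1 / 2 : ℂ) • (1 + (tt B 0 0 + tt B 1 1 - 1) + (tt B 0 0 - tt B 1 1))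
  module

theorem tt_11 [DecidableEq q] (B : Fin 2 → Matrix p q ℂ) :
    tt B 1 1 = (1 / 2 : ℂ) • (1 + kk B - sg B 2) := by
  change _ = (1 / 2 : ℂ) • (1 + (tt B 0 0 + tt B 1 1 - 1) - (tt B 0 0 - tt B 1 1))
  module

theorem tt_01 (B : Fin 2 → Matrix p q ℂ) :
    tt B 0 1 = (1 / 2 : ℂ) • (sg B 0 + Complex.I • sg B 1) := by
  change _ = (1 / 2 : ℂ) • ((tt B 0 1 + tt B 1 0) +
    Complex.I • ((-Complex.I) • tt B 0 1 + Complex.I • tt B 1 0))
  rw [smul_add Complex.I, smul_smul, smul_smul, mul_neg, Complex.I_mul_I]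
  module

theorem tt_10 (B : Fin 2 → Matrix p q ℂ) :
    tt B 1 0 = (1 / 2 : ℂ) • (sg B 0 - Complex.I • sg B 1) := by
  change _ = (1 / 2 : ℂ) • ((tt B 0 1 + tt B 1 0) -
    Complex.I • ((-Complex.I) • tt B 0 1 + Complex.I • tt B 1 0))
  rw [smul_add Complex.I, smul_smul, smul_smul, mul_neg, Complex.I_mul_I]
  module

/-! ### Hermitian letters -/

theorem tt_star (B : Fin 2 → Matrix p q ℂ) (i j : Fin 2) : (tt B i j)ᴴ = tt B j i := by
  unfold tt
  rw [Matrix.conjTranspose_mul, Matrix.conjTranspose_conjTranspose]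

theorem kk_herm [DecidableEq q] (B : Fin 2 → Matrix p q ℂ) : (kk B)ᴴ = kk B := by
  unfold kk
  rw [Matrix.conjTranspose_sub, Matrix.conjTranspose_add, tt_star, tt_star,
    Matrix.conjTranspose_one]

theorem sg_herm (B : Fin 2 → Matrix p q ℂ) (a : Fin 3) : (sg B a)ᴴ = sg B a := by
  fin_cases a
  · change (tt B 0 1 + tt B 1 0)ᴴ = tt B 0 1 + tt B 1 0
    rw [Matrix.conjTranspose_add, tt_star, tt_star, add_comm]
  · change ((-Complex.I) • tt B 0 1 + Complex.I • tt B 1 0)ᴴ =
      (-Complex.I) • tt B 0 1 + Complex.I • tt B 1 0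
    rw [Matrix.conjTranspose_add, Matrix.conjTranspose_smul, Matrix.conjTranspose_smul, tt_star,
      tt_star, star_neg, Complex.star_def, Complex.conj_I, neg_neg, add_comm]
  · change (tt B 0 0 - tt B 1 1)ᴴ = tt B 0 0 - tt B 1 1
    rw [Matrix.conjTranspose_sub, tt_star, tt_star]

/-! ### the complex conjugate plane -/

/-- The entrywise conjugate. -/
def cjB (B : Fin 2 → Matrix p q ℂ) : Fin 2 → Matrix p q ℂ := fun k => (B k).map (starRingEnd ℂ)

theorem tt_cj (B : Fin 2 → Matrix p q ℂ) (i j : Fin 2) :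
    tt (cjB B) i j = (tt B i j).map (starRingEnd ℂ) := by
  unfold tt cjB
  rw [Matrix.map_mul]
  rfl

theorem kk_cj [DecidableEq q] (B : Fin 2 → Matrix p q ℂ) :
    kk (cjB B) = (kk B).map (starRingEnd ℂ) := by
  unfold kk
  rw [tt_cj, tt_cj]
  ext i j
  simp only [Matrix.sub_apply, Matrix.add_apply, Matrix.map_apply, map_sub, map_add,
    Matrix.one_apply]
  split_ifs <;> simp

/-- The signs of the conjugation. -/
def eC : Fin 3 → ℤ := ![1, -1, 1]

theorem sg_cj (B : Fin 2 → Matrix p q ℂ) (a : Fin 3) :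
    sg (cjB B) a = (eC a : ℂ) • (sg B a).map (starRingEnd ℂ) := by
  fin_cases a
  · change tt (cjB B) 0 1 + tt (cjB B) 1 0 = ((1 : ℤ) : ℂ) •
      (tt B 0 1 + tt B 1 0).map (starRingEnd ℂ)
    rw [tt_cj, tt_cj]
    ext i j
    simp
  · change (-Complex.I) • tt (cjB B) 0 1 + Complex.I • tt (cjB B) 1 0 = ((-1 : ℤ) : ℂ) •
      ((-Complex.I) • tt B 0 1 + Complex.I • tt B 1 0).map (starRingEnd ℂ)
    rw [tt_cj, tt_cj]
    ext i j
    simp
    ring
  · change tt (cjB B) 0 0 - tt (cjB B) 1 1 = ((1 : ℤ) : ℂ) •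
      (tt B 0 0 - tt B 1 1).map (starRingEnd ℂ)
    rw [tt_cj, tt_cj]
    ext i j
    simp

end letters

end Pool.Agent.H95P
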