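import Pool.Agent.Lib.H95P.P2
import Pool.Agent.Lib.H75C.C4

/-! # H95P/P3: the letters `K, P, Y, Z` of a plane, their transformation under four rotations, and
the plane functional `FF` in the letters

`T_ij = (B i)^* (B j)`, `K = T_00 + T_11 - 1`, `P = T_01 + T_10`, `Y = T_10 - T_01`
(anti-Hermitian), `Z = T_00 - T_11`. -/

namespace Pool.Agent.H95P

open Matrix Pool.Agent.H92U

section letters

variable {p q : Type*} [Fintype p]

/-- The letter `K`. -/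
def lK [DecidableEq q] (B : Fin 2 → Matrix p q ℂ) : Matrix q q ℂ := tt B 0 0 + tt B 1 1 - 1

/-- The letter `P`. -/
def lP (B : Fin 2 → Matrix p q ℂ) : Matrix q q ℂ := tt B 0 1 + tt B 1 0

/-- The letter `Y` (anti-Hermitian). -/
def lY (B : Fin 2 → Matrix p q ℂ) : Matrix q q ℂ := tt B 1 0 - tt B 0 1

/-- The letter `Z`. -/
def lZ (B : Fin 2 → Matrix p q ℂ) : Matrix q q ℂ := tt B 0 0 - tt B 1 1

theorem lK_star [DecidableEq q] (B : Fin 2 → Matrix p q ℂ) : (lK B)ᴴ = lK B := kk_herm B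

theorem lP_star (B : Fin 2 → Matrix p q ℂ) : (lP B)ᴴ = lP B := by
  unfold lP
  rw [Matrix.conjTranspose_add, tt_star, tt_star, add_comm]

theorem lY_star (B : Fin 2 → Matrix p q ℂ) : (lY B)ᴴ = -lY B := by
  unfold lY
  rw [Matrix.conjTranspose_sub, tt_star, tt_star, neg_sub]

theorem lZ_star (B : Fin 2 → Matrix p q ℂ) : (lZ B)ᴴ = lZ B := by
  unfold lZ
  rw [Matrix.conjTranspose_sub, tt_star, tt_star]

theorem t00 [DecidableEq q] (B : Fin 2 → Matrix p q ℂ) :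
    (B 0)ᴴ * B 0 = (1 / 2 : ℂ) • (1 + lK B + lZ B) := by
  change tt B 0 0 = (1 / 2 : ℂ) • (1 + (tt B 0 0 + tt B 1 1 - 1) + (tt B 0 0 - tt B 1 1))
  module

theorem t11 [DecidableEq q] (B : Fin 2 → Matrix p q ℂ) :
    (B 1)ᴴ * B 1 = (1 / 2 : ℂ) • (1 + lK B - lZ B) := by
  change tt B 1 1 = (1 / 2 : ℂ) • (1 + (tt B 0 0 + tt B 1 1 - 1) - (tt B 0 0 - tt B 1 1))
  module

theorem t01 (B : Fin 2 → Matrix p q ℂ) : (B 0)ᴴ * B 1 = (1 / 2 : ℂ) • (lP B - lY B) := by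
  change tt B 0 1 = (1 / 2 : ℂ) • ((tt B 0 1 + tt B 1 0) - (tt B 1 0 - tt B 0 1))
  module

theorem t10 (B : Fin 2 → Matrix p q ℂ) : (B 1)ᴴ * B 0 = (1 / 2 : ℂ) • (lP B + lY B) := by
  change tt B 1 0 = (1 / 2 : ℂ) • ((tt B 0 1 + tt B 1 0) + (tt B 1 0 - tt B 0 1))
  module

/-! ### the four rotations -/

theorem lK_rot [DecidableEq q] (g : UG 2) (B : Fin 2 → Matrix p q ℂ) :
    lK (rot g B) = lK B := kk_rot g B

/-- `diag(1, -1)`. -/
def V1m : Matrix (Fin 2) (Fin 2) ℂ := !![1, 0; 0, -1]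

/-- `[[0, 1], [-1, 0]]`. -/
def V2m : Matrix (Fin 2) (Fin 2) ℂ := !![0, 1; -1, 0]

/-- `[[1, -1], [1, 1]]/√2`. -/
noncomputable def V3m : Matrix (Fin 2) (Fin 2) ℂ := !![rs, -rs; rs, rs]

theorem V1m_mem : V1m ∈ Matrix.unitaryGroup (Fin 2) ℂ := by
  rw [Matrix.mem_unitaryGroup_iff']
  ext i j
  fin_cases i <;> fin_cases j <;>
    simp [V1m, Matrix.mul_apply, Fin.sum_univ_two, Matrix.star_apply]

theorem V2m_mem : V2m ∈ Matrix.unitaryGroup (Fin 2) ℂ := by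
  rw [Matrix.mem_unitaryGroup_iff']
  ext i j
  fin_cases i <;> fin_cases j <;>
    simp [V2m, Matrix.mul_apply, Fin.sum_univ_two, Matrix.star_apply]

theorem V3m_mem : V3m ∈ Matrix.unitaryGroup (Fin 2) ℂ := by
  have h := rs_sq
  have h2 : rs * rs + rs * rs = 1 := by rw [h]; norm_num
  have h3 := rs_star
  rw [Complex.star_def] at h3
  rw [Matrix.mem_unitaryGroup_iff']
  ext i j
  fin_cases i <;> fin_cases j <;>
    simp [V3m, Matrix.mul_apply, Fin.sum_univ_two, Matrix.star_apply, h3, h2]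

/-- `diag(1, -1)`. -/
def V1 : UG 2 := ⟨V1m, V1m_mem⟩

/-- `[[0, 1], [-1, 0]]`. -/
def V2 : UG 2 := ⟨V2m, V2m_mem⟩

/-- `[[1, -1], [1, 1]]/√2`. -/
noncomputable def V3 : UG 2 := ⟨V3m, V3m_mem⟩

/-- `diag(1, i)`. -/
def V4 : UG 2 := gS

omit [Fintype p] in
theorem rot_V1 (B : Fin 2 → Matrix p q ℂ) : rot V1 B = ![B 0, -B 1] := by
  funext i
  unfold rot
  rw [Fin.sum_univ_two]
  fin_cases i <;> simp [V1, V1m]

omit [Fintype p] in
theorem rot_V2 (B : Fin 2 → Matrix p q ℂ) : rot V2 B = ![-B 1, B 0] := by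
  funext i
  unfold rot
  rw [Fin.sum_univ_two]
  fin_cases i <;> simp [V2, V2m]

omit [Fintype p] in
theorem rot_V3 (B : Fin 2 → Matrix p q ℂ) :
    rot V3 B = ![rs • (B 0 + B 1), rs • (B 1 - B 0)] := by
  funext i
  unfold rot
  rw [Fin.sum_univ_two]
  fin_cases i
  · simp [V3, V3m]
  · simp [V3, V3m, sub_eq_add_neg, add_comm]

theorem tt_V1 (B : Fin 2 → Matrix p q ℂ) : tt (rot V1 B) 0 0 = tt B 0 0 ∧
    tt (rot V1 B) 0 1 = -tt B 0 1 ∧ tt (rot V1 B) 1 0 = -tt B 1 0 ∧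
    tt (rot V1 B) 1 1 = tt B 1 1 := by
  rw [rot_V1]
  refine ⟨rfl, ?_, ?_, ?_⟩
  · change (B 0)ᴴ * (-B 1) = -((B 0)ᴴ * B 1)
    rw [Matrix.mul_neg]
  · change (-B 1)ᴴ * B 0 = -((B 1)ᴴ * B 0)
    rw [Matrix.conjTranspose_neg, Matrix.neg_mul]
  · change (-B 1)ᴴ * (-B 1) = (B 1)ᴴ * B 1
    rw [Matrix.conjTranspose_neg, Matrix.neg_mul, Matrix.mul_neg, neg_neg]

theorem tt_V2 (B : Fin 2 → Matrix p q ℂ) : tt (rot V2 B) 0 0 = tt B 1 1 ∧
    tt (rot V2 B) 0 1 = -tt B 1 0 ∧ tt (rot V2 B) 1 0 = -tt B 0 1 ∧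
    tt (rot V2 B) 1 1 = tt B 0 0 := by
  rw [rot_V2]
  refine ⟨?_, ?_, ?_, rfl⟩
  · change (-B 1)ᴴ * (-B 1) = (B 1)ᴴ * B 1
    rw [Matrix.conjTranspose_neg, Matrix.neg_mul, Matrix.mul_neg, neg_neg]
  · change (-B 1)ᴴ * B 0 = -((B 1)ᴴ * B 0)
    rw [Matrix.conjTranspose_neg, Matrix.neg_mul]
  · change (B 0)ᴴ * (-B 1) = -((B 0)ᴴ * B 1)
    rw [Matrix.mul_neg]

theorem tt_V3 (B : Fin 2 → Matrix p q ℂ) :
    tt (rot V3 B) 0 0 = (1 / 2 : ℂ) • (tt B 0 0 + tt B 0 1 + tt B 1 0 + tt B 1 1) ∧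
    tt (rot V3 B) 0 1 = (1 / 2 : ℂ) • (-tt B 0 0 + tt B 0 1 - tt B 1 0 + tt B 1 1) ∧
    tt (rot V3 B) 1 0 = (1 / 2 : ℂ) • (-tt B 0 0 - tt B 0 1 + tt B 1 0 + tt B 1 1) ∧
    tt (rot V3 B) 1 1 = (1 / 2 : ℂ) • (tt B 0 0 - tt B 0 1 - tt B 1 0 + tt B 1 1) := by
  rw [rot_V3]
  refine ⟨?_, ?_, ?_, ?_⟩
  · unfold tt
    change (rs • (B 0 + B 1))ᴴ * (rs • (B 0 + B 1)) = _
    rw [Matrix.conjTranspose_smul, Matrix.smul_mul, Matrix.mul_smul, smul_smul, rs_star, rs_sq,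
      Matrix.conjTranspose_add, Matrix.add_mul, Matrix.mul_add, Matrix.mul_add]
    module
  · unfold tt
    change (rs • (B 0 + B 1))ᴴ * (rs • (B 1 - B 0)) = _
    rw [Matrix.conjTranspose_smul, Matrix.smul_mul, Matrix.mul_smul, smul_smul, rs_star, rs_sq,
      Matrix.conjTranspose_add, Matrix.add_mul, Matrix.mul_sub, Matrix.mul_sub]
    module
  · unfold tt
    change (rs • (B 1 - B 0))ᴴ * (rs • (B 0 + B 1)) = _
    rw [Matrix.conjTranspose_smul, Matrix.smul_mul, Matrix.mul_smul, smul_smul, rs_star, rs_sq,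
      Matrix.conjTranspose_sub, Matrix.sub_mul, Matrix.mul_add, Matrix.mul_add]
    module
  · unfold tt
    change (rs • (B 1 - B 0))ᴴ * (rs • (B 1 - B 0)) = _
    rw [Matrix.conjTranspose_smul, Matrix.smul_mul, Matrix.mul_smul, smul_smul, rs_star, rs_sq,
      Matrix.conjTranspose_sub, Matrix.sub_mul, Matrix.mul_sub, Matrix.mul_sub]
    module

theorem tt_V4 (B : Fin 2 → Matrix p q ℂ) : tt (rot V4 B) 0 0 = tt B 0 0 ∧
    tt (rot V4 B) 0 1 = Complex.I • tt B 0 1 ∧ tt (rot V4 B) 1 0 = (-Complex.I) • tt B 1 0 ∧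
    tt (rot V4 B) 1 1 = tt B 1 1 := by
  unfold V4
  rw [rot_gS]
  refine ⟨rfl, ?_, ?_, ?_⟩
  · unfold tt
    exact Matrix.mul_smul _ _ _
  · unfold tt
    change (Complex.I • B 1)ᴴ * B 0 = _
    rw [Matrix.conjTranspose_smul, Matrix.smul_mul, Complex.star_def, Complex.conj_I]
  · unfold tt
    change (Complex.I • B 1)ᴴ * (Complex.I • B 1) = _
    rw [Matrix.conjTranspose_smul, Matrix.smul_mul, Matrix.mul_smul, smul_smul, Complex.star_def,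
      Complex.conj_I]
    simp

/-- The first rotation: `(P, Y, Z) ↦ (-P, -Y, Z)`. -/
theorem V1_act (B : Fin 2 → Matrix p q ℂ) :
    lP (rot V1 B) = -lP B ∧ lY (rot V1 B) = -lY B ∧ lZ (rot V1 B) = lZ B := by
  obtain ⟨h00, h01, h10, h11⟩ := tt_V1 B
  unfold lP lY lZ
  rw [h00, h01, h10, h11]
  refine ⟨?_, ?_, rfl⟩ <;> abel

/-- The second rotation: `(P, Y, Z) ↦ (-P, Y, -Z)`. -/
theorem V2_act (B : Fin 2 → Matrix p q ℂ) :
    lP (rot V2 B) = -lP B ∧ lY (rot V2 B) = lY B ∧ lZ (rot V2 B) = -lZ B := by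
  obtain ⟨h00, h01, h10, h11⟩ := tt_V2 B
  unfold lP lY lZ
  rw [h00, h01, h10, h11]
  refine ⟨?_, ?_, ?_⟩ <;> abel

/-- The third rotation: `(P, Y, Z) ↦ (-Z, Y, P)`. -/
theorem V3_act (B : Fin 2 → Matrix p q ℂ) :
    lP (rot V3 B) = -lZ B ∧ lY (rot V3 B) = lY B ∧ lZ (rot V3 B) = lP B := by
  obtain ⟨h00, h01, h10, h11⟩ := tt_V3 B
  unfold lP lY lZ
  rw [h00, h01, h10, h11]
  refine ⟨?_, ?_, ?_⟩ <;> module

/-- The fourth rotation: `(P, Y, Z) ↦ (-i Y, -i P, Z)`. -/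
theorem V4_act (B : Fin 2 → Matrix p q ℂ) :
    lP (rot V4 B) = (-Complex.I) • lY B ∧ lY (rot V4 B) = (-Complex.I) • lP B ∧
      lZ (rot V4 B) = lZ B := by
  obtain ⟨h00, h01, h10, h11⟩ := tt_V4 B
  unfold lP lY lZ
  rw [h00, h01, h10, h11]
  refine ⟨?_, ?_, rfl⟩ <;> module

end letters

/-! ### the plane functional in the letters -/

section functional

open Pool.Agent.H25A Pool.Agent.H54J Pool.Agent.H16T Pool.Agent.H75C
open scoped ComplexOrder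

variable {ι κ : Type*} [Fintype ι] [DecidableEq ι] [Fintype κ] [DecidableEq κ]

/-- `Re tr X u X v`. -/
noncomputable def rr (X u v : Matrix ι ι ℂ) : ℝ := rtr (X * u * X * v)

theorem rr_comm (X u v : Matrix ι ι ℂ) : rr X u v = rr X v u := by
  unfold rr
  have h := rtr_mul_comm (X * u) (X * v)
  simpa only [Matrix.mul_assoc] using h

theorem rr_star {X : Matrix ι ι ℂ} (hX : X.IsHermitian) (u v : Matrix ι ι ℂ) :
    rr X uᴴ vᴴ = rr X u v := by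
  unfold rr
  have h := rtr_conjTranspose (X * v * X * u)
  simp only [Matrix.conjTranspose_mul, hX.eq] at h
  have h2 := rtr_mul_comm (X * v) (X * u)
  have h3 := rtr_mul_comm (X * uᴴ) (X * vᴴ)
  have h4 := rtr_mul_comm (uᴴ * (X * (vᴴ))) X
  simp only [Matrix.mul_assoc] at h h2 h3 h4 ⊢
  linarith

theorem rr_one (X u : Matrix ι ι ℂ) : rr X u 1 = rtr (X * X * u) := by
  unfold rr
  have h := rtr_mul_comm (X * u) X
  simpa only [Matrix.mul_assoc, Matrix.mul_one] using h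

theorem nuE_rr (X E : Matrix ι ι ℂ) : nuE X E = rr X E 1 - rr X E E := by
  rw [rr_one]
  rfl

theorem hf_rr (X b a : Matrix ι ι ℂ) : hf X b a =
    (1 / 4) * rr X (a * a + a * b * a * b + b * a * b * a + b * a * a * b) 1 -
      rr X a (b * a * b) := by
  rw [rr_one]
  unfold hf rr
  simp only [Matrix.mul_assoc]

theorem xx_rr (X c : Matrix ι ι ℂ) : xx X c = rr X cᴴ c := by
  unfold xx rr
  have h := rtr_mul_comm (cᴴ * X * c) X
  simpa only [Matrix.mul_assoc] using h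

theorem er_rr (X E : Matrix ι ι ℂ) : er X E = rr X ((1 - E) * E * (1 - E)) 1 := by
  rw [rr_one]
  rfl

/-- The plane functional in the letters. -/
noncomputable def FFl (s y m : ℝ) (X K P Y Z : Matrix ι ι ℂ) : ℝ :=
  3 * (1 + s) / 2 * ((rr X ((1 / 2 : ℂ) • (1 + K + Z)) 1 -
      rr X ((1 / 2 : ℂ) • (1 + K + Z)) ((1 / 2 : ℂ) • (1 + K + Z))) +
    (rr X ((1 / 2 : ℂ) • (1 + K - Z)) 1 -
      rr X ((1 / 2 : ℂ) • (1 + K - Z)) ((1 / 2 : ℂ) • (1 + K - Z)))) -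
  ((1 / 8) * (((1 / 4) * rr X ((K + Z) * (K + Z) + (K + Z) * (K - Z) * (K + Z) * (K - Z) +
        (K - Z) * (K + Z) * (K - Z) * (K + Z) + (K - Z) * (K + Z) * (K + Z) * (K - Z)) 1 -
      rr X (K + Z) ((K - Z) * (K + Z) * (K - Z))) +
    ((1 / 4) * rr X ((K - Z) * (K - Z) + (K - Z) * (K + Z) * (K - Z) * (K + Z) +
        (K + Z) * (K - Z) * (K + Z) * (K - Z) + (K + Z) * (K - Z) * (K - Z) * (K + Z)) 1 -
      rr X (K - Z) ((K + Z) * (K - Z) * (K + Z)))) +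
    (m / 64) * rr X ((K + Z) + (K - Z) - (K + Z) * (K - Z) * (K + Z) - (K - Z) * (K + Z) * (K - Z))
      ((K + Z) + (K - Z) - (K + Z) * (K - Z) * (K + Z) - (K - Z) * (K + Z) * (K - Z))) +
  y * (4 * rr X (((1 / 2 : ℂ) • (1 - K - Z)) * ((1 / 2 : ℂ) • (P - Y)))
        (((1 / 2 : ℂ) • (P + Y)) * ((1 / 2 : ℂ) • (1 - K - Z))) +
    4 * s * rr X (((1 / 2 : ℂ) • (1 - K - Z)) * ((1 / 2 : ℂ) • (1 + K + Z)))
        (((1 / 2 : ℂ) • (1 + K + Z)) * ((1 / 2 : ℂ) • (1 - K - Z))) -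
    2 * (1 + 2 * s) * rr X (((1 / 2 : ℂ) • (1 - K - Z)) * ((1 / 2 : ℂ) • (1 + K + Z)) *
        ((1 / 2 : ℂ) • (1 - K - Z))) 1)

omit [DecidableEq κ] in
/-- The plane functional in the letters. -/
theorem FF_letters (s y m : ℝ) (X : Matrix ι ι ℂ) (B : Fin 2 → Matrix κ ι ℂ) :
    FF s y m X (B 0) (B 1) = FFl s y m X (lK B) (lP B) (lY B) (lZ B) := by
  have ha : (B 0)ᴴ * B 0 + (B 0)ᴴ * B 0 - 1 = lK B + lZ B := by
    rw [t00]
    module
  have hb : (B 1)ᴴ * B 1 + (B 1)ᴴ * B 1 - 1 = lK B - lZ B := by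
    rw [t11]
    module
  have hR : 1 - (B 0)ᴴ * B 0 = (1 / 2 : ℂ) • (1 - lK B - lZ B) := by
    rw [t00]
    module
  have hRs : ((1 / 2 : ℂ) • (1 - lK B - lZ B))ᴴ = (1 / 2 : ℂ) • (1 - lK B - lZ B) := by
    rw [← hR, Matrix.conjTranspose_sub, Matrix.conjTranspose_one, Matrix.conjTranspose_mul,
      Matrix.conjTranspose_conjTranspose]
  have hEs : ((1 / 2 : ℂ) • (1 + lK B + lZ B))ᴴ = (1 / 2 : ℂ) • (1 + lK B + lZ B) := by
    rw [← t00, Matrix.conjTranspose_mul, Matrix.conjTranspose_conjTranspose]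
  have hTs : ((1 / 2 : ℂ) • (lP B + lY B))ᴴ = (1 / 2 : ℂ) • (lP B - lY B) := by
    rw [← t10, ← t01, Matrix.conjTranspose_mul, Matrix.conjTranspose_conjTranspose]
  have hus : (u8 (lK B + lZ B) (lK B - lZ B))ᴴ = u8 (lK B + lZ B) (lK B - lZ B) := by
    have h1 : (lK B + lZ B)ᴴ = lK B + lZ B := by
      rw [Matrix.conjTranspose_add, lK_star, lZ_star]
    have h2 : (lK B - lZ B)ᴴ = lK B - lZ B := by
      rw [Matrix.conjTranspose_sub, lK_star, lZ_star]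
    unfold u8
    simp only [Matrix.conjTranspose_add, Matrix.conjTranspose_sub, Matrix.conjTranspose_mul,
      h1, h2, Matrix.mul_assoc]
  unfold FF pf
  rw [ha, hb, hR, t10, nuE_rr, nuE_rr, hf_rr, hf_rr, xx_rr, xx_rr, xx_rr, er_rr, hR, hus, t00,
    t11, Matrix.conjTranspose_mul, Matrix.conjTranspose_mul, hRs, hTs, hEs]
  rfl

end functional

end Pool.Agent.H95P
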