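import Pool.Agent.Lib.H95P.P3

/-! # H95P/P4: the averaged word functional and its symmetries

Words are lists over `Fin 4`, the letters `K, P, Y, Z` are `0, 1, 2, 3`. -/

namespace Pool.Agent.H95P

open Matrix Pool.Agent.H92U Pool.Agent.H25A

/-! ### words -/

section words

variable {ι : Type*} [Fintype ι] [DecidableEq ι]

/-- The product of the letters of a word. -/
def wd (L : Fin 4 → Matrix ι ι ℂ) : List (Fin 4) → Matrix ι ι ℂ
  | [] => 1
  | a :: w => L a * wd L w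

theorem wd_nil (L : Fin 4 → Matrix ι ι ℂ) : wd L [] = 1 := rfl

theorem wd_cons (L : Fin 4 → Matrix ι ι ℂ) (a : Fin 4) (w : List (Fin 4)) :
    wd L (a :: w) = L a * wd L w := rfl

theorem wd_append (L : Fin 4 → Matrix ι ι ℂ) (u v : List (Fin 4)) :
    wd L (u ++ v) = wd L u * wd L v := by
  induction u with
  | nil => rw [List.nil_append, wd_nil, Matrix.one_mul]
  | cons a u ih => rw [List.cons_append, wd_cons, wd_cons, ih, Matrix.mul_assoc]

theorem wd_smul {L L' : Fin 4 → Matrix ι ι ℂ} {c : Fin 4 → ℂ} {σ : Fin 4 → Fin 4}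
    (h : ∀ a, L' a = c a • L (σ a)) (w : List (Fin 4)) :
    wd L' w = (w.map c).prod • wd L (w.map σ) := by
  induction w with
  | nil => rw [List.map_nil, List.map_nil, List.prod_nil, wd_nil, wd_nil, one_smul]
  | cons a w ih =>
    rw [wd_cons, List.map_cons, List.map_cons, List.prod_cons, wd_cons, ih, h, Matrix.smul_mul,
      Matrix.mul_smul, smul_smul]

theorem wd_star {L : Fin 4 → Matrix ι ι ℂ} {c : Fin 4 → ℂ} (h : ∀ a, (L a)ᴴ = c a • L a)
    (w : List (Fin 4)) : (wd L w)ᴴ = (w.map c).prod • wd L w.reverse := by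
  induction w with
  | nil =>
    rw [List.map_nil, List.reverse_nil, List.prod_nil, wd_nil, Matrix.conjTranspose_one, one_smul]
  | cons a w ih =>
    rw [wd_cons, Matrix.conjTranspose_mul, ih, h, List.map_cons, List.prod_cons,
      List.reverse_cons, wd_append, wd_cons, wd_nil, Matrix.mul_one, Matrix.smul_mul,
      Matrix.mul_smul, smul_smul, mul_comm (c a)]

omit [DecidableEq ι] in
theorem rr_smul (X u v : Matrix ι ι ℂ) {z w : ℂ} {r : ℝ} (h : z * w = (r : ℂ)) :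
    rr X (z • u) (w • v) = r * rr X u v := by
  unfold rr rtr
  have h1 : X * (z • u) * X * (w • v) = (z * w) • (X * u * X * v) := by
    simp only [Matrix.mul_smul, Matrix.smul_mul, smul_smul]
    rw [mul_comm z w]
  rw [h1, h, Matrix.trace_smul, smul_eq_mul, Complex.re_ofReal_mul]

end words

/-! ### the letters of a plane as a family -/

section plane

variable {ι κ : Type*} [Fintype ι] [DecidableEq ι] [Fintype κ]

/-- The four letters. -/
def lt (B : Fin 2 → Matrix κ ι ℂ) : Fin 4 → Matrix ι ι ℂ := ![lK B, lP B, lY B, lZ B]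

/-- The signs of the adjoint. -/
def sA : Fin 4 → ℤ := ![1, 1, -1, 1]

/-- The signs of the first rotation. -/
def s1 : Fin 4 → ℤ := ![1, -1, -1, 1]

/-- The signs of the second rotation. -/
def s2 : Fin 4 → ℤ := ![1, -1, 1, -1]

/-- The signs of the third rotation. -/
def s3 : Fin 4 → ℤ := ![1, -1, 1, 1]

/-- The factors of the fourth rotation. -/
def s4 : Fin 4 → ℂ := ![1, -Complex.I, -Complex.I, 1]

/-- `P ↔ Z`. -/
def p3 : Fin 4 → Fin 4 := ![0, 3, 2, 1]

/-- `P ↔ Y`. -/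
def p4 : Fin 4 → Fin 4 := ![0, 2, 1, 3]

omit [Fintype ι] in
theorem lt_star (B : Fin 2 → Matrix κ ι ℂ) (a : Fin 4) : (lt B a)ᴴ = (sA a : ℂ) • lt B a := by
  fin_cases a
  · change (lK B)ᴴ = ((1 : ℤ) : ℂ) • lK B
    rw [lK_star, Int.cast_one, one_smul]
  · change (lP B)ᴴ = ((1 : ℤ) : ℂ) • lP B
    rw [lP_star, Int.cast_one, one_smul]
  · change (lY B)ᴴ = ((-1 : ℤ) : ℂ) • lY B
    rw [lY_star, Int.cast_neg, Int.cast_one, neg_smul, one_smul]
  · change (lZ B)ᴴ = ((1 : ℤ) : ℂ) • lZ B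
    rw [lZ_star, Int.cast_one, one_smul]

omit [Fintype ι] in
theorem lt_V1 (B : Fin 2 → Matrix κ ι ℂ) (a : Fin 4) :
    lt (rot V1 B) a = (s1 a : ℂ) • lt B (id a) := by
  obtain ⟨h1, h2, h3⟩ := V1_act B
  fin_cases a
  · change lK (rot V1 B) = ((1 : ℤ) : ℂ) • lK B
    rw [lK_rot, Int.cast_one, one_smul]
  · change lP (rot V1 B) = ((-1 : ℤ) : ℂ) • lP B
    rw [h1, Int.cast_neg, Int.cast_one, neg_smul, one_smul]
  · change lY (rot V1 B) = ((-1 : ℤ) : ℂ) • lY B
    rw [h2, Int.cast_neg, Int.cast_one, neg_smul, one_smul]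
  · change lZ (rot V1 B) = ((1 : ℤ) : ℂ) • lZ B
    rw [h3, Int.cast_one, one_smul]

omit [Fintype ι] in
theorem lt_V2 (B : Fin 2 → Matrix κ ι ℂ) (a : Fin 4) :
    lt (rot V2 B) a = (s2 a : ℂ) • lt B (id a) := by
  obtain ⟨h1, h2, h3⟩ := V2_act B
  fin_cases a
  · change lK (rot V2 B) = ((1 : ℤ) : ℂ) • lK B
    rw [lK_rot, Int.cast_one, one_smul]
  · change lP (rot V2 B) = ((-1 : ℤ) : ℂ) • lP B
    rw [h1, Int.cast_neg, Int.cast_one, neg_smul, one_smul]
  · change lY (rot V2 B) = ((1 : ℤ) : ℂ) • lY B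
    rw [h2, Int.cast_one, one_smul]
  · change lZ (rot V2 B) = ((-1 : ℤ) : ℂ) • lZ B
    rw [h3, Int.cast_neg, Int.cast_one, neg_smul, one_smul]

omit [Fintype ι] in
theorem lt_V3 (B : Fin 2 → Matrix κ ι ℂ) (a : Fin 4) :
    lt (rot V3 B) a = (s3 a : ℂ) • lt B (p3 a) := by
  obtain ⟨h1, h2, h3⟩ := V3_act B
  fin_cases a
  · change lK (rot V3 B) = ((1 : ℤ) : ℂ) • lK B
    rw [lK_rot, Int.cast_one, one_smul]
  · change lP (rot V3 B) = ((-1 : ℤ) : ℂ) • lZ B
    rw [h1, Int.cast_neg, Int.cast_one, neg_smul, one_smul]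
  · change lY (rot V3 B) = ((1 : ℤ) : ℂ) • lY B
    rw [h2, Int.cast_one, one_smul]
  · change lZ (rot V3 B) = ((1 : ℤ) : ℂ) • lP B
    rw [h3, Int.cast_one, one_smul]

omit [Fintype ι] in
theorem lt_V4 (B : Fin 2 → Matrix κ ι ℂ) (a : Fin 4) :
    lt (rot V4 B) a = s4 a • lt B (p4 a) := by
  obtain ⟨h1, h2, h3⟩ := V4_act B
  fin_cases a
  · change lK (rot V4 B) = (1 : ℂ) • lK B
    rw [lK_rot, one_smul]
  · change lP (rot V4 B) = (-Complex.I) • lY B
    rw [h1]
  · change lY (rot V4 B) = (-Complex.I) • lP B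
    rw [h2]
  · change lZ (rot V4 B) = (1 : ℂ) • lZ B
    rw [h3, one_smul]

/-! ### polynomials -/

omit [DecidableEq ι] [Fintype ι] in
theorem tt_pol (B : Fin 2 → Matrix κ ι ℂ) (i j : Fin 2) : PolM 2 (fun g : UG 2 => tt (rot g B) i j) :=
  ((PolM.rot B i).conjTranspose.mul (PolM.rot B j)).mono (by norm_num)

omit [Fintype ι] in
theorem lt_pol (B : Fin 2 → Matrix κ ι ℂ) (a : Fin 4) :
    PolM 2 (fun g : UG 2 => lt (rot g B) a) := by
  fin_cases a
  · exact ((tt_pol B 0 0).add (tt_pol B 1 1)).sub (PolM.const 1)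
  · exact (tt_pol B 0 1).add (tt_pol B 1 0)
  · exact (tt_pol B 1 0).sub (tt_pol B 0 1)
  · exact (tt_pol B 0 0).sub (tt_pol B 1 1)

theorem wd_pol (B : Fin 2 → Matrix κ ι ℂ) (w : List (Fin 4)) :
    PolM (2 * w.length) (fun g : UG 2 => wd (lt (rot g B)) w) := by
  induction w with
  | nil => exact PolM.const 1
  | cons a w ih =>
    have h := (lt_pol B a).mul ih
    rw [List.length_cons, mul_add, mul_one, add_comm]
    exact h

theorem rr_pol (X : Matrix ι ι ℂ) (B : Fin 2 → Matrix κ ι ℂ) (u v : List (Fin 4)) :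
    PolR (2 * (u.length + v.length))
      (fun g : UG 2 => rr X (wd (lt (rot g B)) u) (wd (lt (rot g B)) v)) := by
  have h1 : PolM (2 * u.length) (fun g : UG 2 => X * wd (lt (rot g B)) u * X) := by
    have h2 := ((PolM.const (D := 0) (n := 2) X).mul (wd_pol B u)).mul
      (PolM.const (D := 0) (n := 2) X)
    exact h2.mono (by omega)
  have h3 := h1.mul (wd_pol B v)
  exact PolR.rtr (h3.mono (by omega))

/-! ### the functional -/

variable {D : ℕ}

/-- The averaged word functional. -/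
noncomputable def Lf (δ : Design 2 D) (X : Matrix ι ι ℂ) (B : Fin 2 → Matrix κ ι ℂ)
    (u v : List (Fin 4)) : ℝ :=
  Av δ (fun g => rr X (wd (lt (rot g B)) u) (wd (lt (rot g B)) v))

theorem Lf_comm (δ : Design 2 D) (X : Matrix ι ι ℂ) (B : Fin 2 → Matrix κ ι ℂ)
    (u v : List (Fin 4)) : Lf δ X B u v = Lf δ X B v u :=
  Av_congr δ fun _ => rr_comm _ _ _

theorem Lf_rev (δ : Design 2 D) {X : Matrix ι ι ℂ} (hX : X.IsHermitian)
    (B : Fin 2 → Matrix κ ι ℂ) (u v : List (Fin 4)) :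
    Lf δ X B u v = (((u.map sA).prod * (v.map sA).prod : ℤ) : ℝ) *
      Lf δ X B u.reverse v.reverse := by
  unfold Lf
  rw [← Av_mul_left_real]
  refine Av_congr δ fun g => ?_
  rw [← rr_star hX, wd_star (lt_star (rot g B)), wd_star (lt_star (rot g B))]
  refine rr_smul _ _ _ ?_
  have h : ∀ w : List (Fin 4), (w.map (fun a => (sA a : ℂ))).prod = ((w.map sA).prod : ℂ) := by
    intro w
    rw [Int.cast_list_prod, List.map_map]
    rfl
  rw [h, h, Complex.ofReal_intCast, Int.cast_mul]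

theorem Lf_act (δ : Design 2 D) (X : Matrix ι ι ℂ) (B : Fin 2 → Matrix κ ι ℂ) (V : UG 2)
    (c : Fin 4 → ℂ) (σ : Fin 4 → Fin 4)
    (hV : ∀ (B : Fin 2 → Matrix κ ι ℂ) (a : Fin 4), lt (rot V B) a = c a • lt B (σ a))
    (u v : List (Fin 4)) (hD : 2 * (u.length + v.length) ≤ D) {r : ℝ}
    (hr : (u.map c).prod * (v.map c).prod = (r : ℂ)) :
    Lf δ X B u v = r * Lf δ X B (u.map σ) (v.map σ) := by
  unfold Lf
  rw [← ((rr_pol X B u v).mono hD).Av_right δ V, ← Av_mul_left_real]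
  refine Av_congr δ fun g => ?_
  have h1 : rot (g * V) B = rot V (rot g B) := funext fun i => rot_mul g V B i
  rw [h1, wd_smul (hV (rot g B)), wd_smul (hV (rot g B))]
  exact rr_smul _ _ _ hr

theorem Lf_actZ (δ : Design 2 D) (X : Matrix ι ι ℂ) (B : Fin 2 → Matrix κ ι ℂ) (V : UG 2)
    (c : Fin 4 → ℤ) (σ : Fin 4 → Fin 4)
    (hV : ∀ (B : Fin 2 → Matrix κ ι ℂ) (a : Fin 4), lt (rot V B) a = (c a : ℂ) • lt B (σ a))
    (u v : List (Fin 4)) (hD : 2 * (u.length + v.length) ≤ D) :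
    Lf δ X B u v = (((u.map c).prod * (v.map c).prod : ℤ) : ℝ) *
      Lf δ X B (u.map σ) (v.map σ) := by
  refine Lf_act δ X B V (fun a => (c a : ℂ)) σ hV u v hD ?_
  have h : ∀ w : List (Fin 4), (w.map (fun a => (c a : ℂ))).prod = ((w.map c).prod : ℂ) := by
    intro w
    rw [Int.cast_list_prod, List.map_map]
    rfl
  rw [h, h, Complex.ofReal_intCast, Int.cast_mul]

/-- The first rotation. -/
theorem Lf_V1 (δ : Design 2 D) (X : Matrix ι ι ℂ) (B : Fin 2 → Matrix κ ι ℂ)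
    (u v : List (Fin 4)) (hD : 2 * (u.length + v.length) ≤ D) :
    Lf δ X B u v = (((u.map s1).prod * (v.map s1).prod : ℤ) : ℝ) * Lf δ X B u v := by
  have h := Lf_actZ δ X B V1 s1 id lt_V1 u v hD
  rwa [List.map_id, List.map_id] at h

/-- The second rotation. -/
theorem Lf_V2 (δ : Design 2 D) (X : Matrix ι ι ℂ) (B : Fin 2 → Matrix κ ι ℂ)
    (u v : List (Fin 4)) (hD : 2 * (u.length + v.length) ≤ D) :
    Lf δ X B u v = (((u.map s2).prod * (v.map s2).prod : ℤ) : ℝ) * Lf δ X B u v := by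
  have h := Lf_actZ δ X B V2 s2 id lt_V2 u v hD
  rwa [List.map_id, List.map_id] at h

/-- The third rotation. -/
theorem Lf_V3 (δ : Design 2 D) (X : Matrix ι ι ℂ) (B : Fin 2 → Matrix κ ι ℂ)
    (u v : List (Fin 4)) (hD : 2 * (u.length + v.length) ≤ D) :
    Lf δ X B u v = (((u.map s3).prod * (v.map s3).prod : ℤ) : ℝ) *
      Lf δ X B (u.map p3) (v.map p3) :=
  Lf_actZ δ X B V3 s3 p3 lt_V3 u v hD

/-- The number of letters `P`, `Y`. -/
def nPY : List (Fin 4) → ℕ
  | [] => 0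
  | a :: w => (if a = 1 ∨ a = 2 then 1 else 0) + nPY w

theorem prod_s4 (w : List (Fin 4)) : (w.map s4).prod = (-Complex.I) ^ nPY w := by
  induction w with
  | nil => simp [nPY]
  | cons a w ih =>
    rw [List.map_cons, List.prod_cons, ih, nPY, pow_add]
    congr 1
    fin_cases a <;> simp [s4]

/-- The fourth rotation. -/
theorem Lf_V4 (δ : Design 2 D) (X : Matrix ι ι ℂ) (B : Fin 2 → Matrix κ ι ℂ)
    (u v : List (Fin 4)) (hD : 2 * (u.length + v.length) ≤ D) (t : ℕ)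
    (ht : nPY u + nPY v = 2 * t) :
    Lf δ X B u v = (-1) ^ t * Lf δ X B (u.map p4) (v.map p4) := by
  refine Lf_act δ X B V4 s4 p4 lt_V4 u v hD ?_
  rw [prod_s4, prod_s4, ← pow_add, ht, pow_mul, neg_sq, Complex.I_sq]
  push_cast
  rfl

/-- The functional vanishes if the parities of the numbers of `P`, `Y`, `Z` are different. -/
theorem Lf_parity (δ : Design 2 D) (X : Matrix ι ι ℂ) (B : Fin 2 → Matrix κ ι ℂ)
    (u v : List (Fin 4)) (hD : 2 * (u.length + v.length) ≤ D)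
    (h : (u.map s1).prod * (v.map s1).prod = -1 ∨ (u.map s2).prod * (v.map s2).prod = -1) :
    Lf δ X B u v = 0 := by
  rcases h with h | h
  · have h1 := Lf_V1 δ X B u v hD
    rw [h] at h1
    push_cast at h1
    linarith
  · have h1 := Lf_V2 δ X B u v hD
    rw [h] at h1
    push_cast at h1
    linarith

end plane

end Pool.Agent.H95P
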